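import Pool.Agent.Y472.G.Defs

/-! Properties of the leading exponent. -/

set_option autoImplicit false

namespace Pool.Agent.Y710.CG

open Filter Topology Metric MeasureTheory Set
open Pool.Agent.W711.HT (bet)
open Pool.Agent.Y472 (s0 gh Lm S_S0P)
open scoped Real

/-- positive real part of the cosine -/
lemma re_cos {z : ℂ} (h : |z.re| < π / 2) : 0 < (Complex.cos z).re := by
  have h1 : Complex.cos z = ((Real.cos z.re * Real.cosh z.im : ℝ) : ℂ) -
      ((Real.sin z.re * Real.sinh z.im : ℝ) : ℂ) * Complex.I := by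
    rw [Complex.cos_eq]; push_cast; ring
  have h2 : (Complex.cos z).re = Real.cos z.re * Real.cosh z.im := by
    rw [h1]
    simp only [Complex.sub_re, Complex.ofReal_re, Complex.mul_I_re, Complex.ofReal_im]
    ring
  rw [h2]
  rw [abs_lt] at h
  exact mul_pos (Real.cos_pos_of_mem_Ioo ⟨by linarith [h.1], h.2⟩) (Real.cosh_pos _)

lemma ne_of_re {z : ℂ} (h : 0 < z.re) : z ≠ 0 := by
  rintro rfl
  simp at h

/-- the integrand -/
noncomputable def Q (χ : ℂ) (θ : ℝ) : ℂ := 2 * Complex.cos (χ / 2) + 2 * Complex.cos (θ : ℂ)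

lemma half_re (χ : ℂ) : (χ / 2).re = χ.re / 2 := by simp

lemma Q_pos {χ : ℂ} (h : |χ.re| < π) {θ : ℝ} (hθ : θ ∈ Icc (-(π / 2)) (π / 2)) :
    0 < (Q χ θ).re := by
  have h1 : 0 < (Complex.cos (χ / 2)).re := re_cos (by
    rw [half_re, abs_div, abs_two]; linarith)
  have h2 : (Complex.cos (θ : ℂ)).re = Real.cos θ := by
    rw [← Complex.ofReal_cos, Complex.ofReal_re]
  have h3 : 0 ≤ Real.cos θ := Real.cos_nonneg_of_mem_Icc hθ
  have h4 : (Q χ θ).re = 2 * (Complex.cos (χ / 2)).re + 2 * (Complex.cos (θ : ℂ)).re := by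
    unfold Q; simp
  rw [h4, h2]
  linarith

theorem s0_der {χ : ℂ} (h : |χ.re| < π) :
    HasDerivAt s0 (1 / π * ∫ θ in (-(π / 2))..(π / 2), -Complex.sin (χ / 2) / Q χ θ) χ := by
  have hpi := Real.pi_pos
  have hle : -(π / 2) ≤ π / 2 := by linarith
  obtain ⟨δ, hδ, hball⟩ : ∃ δ > 0, closedBall χ δ ⊆ {z : ℂ | |z.re| < π} := by
    have h1 : IsOpen {z : ℂ | |z.re| < π} :=
      isOpen_lt (Complex.continuous_re.abs) continuous_const
    exact Metric.nhds_basis_closedBall.mem_iff.1 (h1.mem_nhds h)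
  have hK : IsCompact (closedBall χ δ ×ˢ Icc (-(π / 2)) (π / 2)) :=
    (isCompact_closedBall χ δ).prod isCompact_Icc
  have hc : ContinuousOn (fun p : ℂ × ℝ => -Complex.sin (p.1 / 2) / Q p.1 p.2)
      (closedBall χ δ ×ˢ Icc (-(π / 2)) (π / 2)) := by
    apply ContinuousOn.div
    · fun_prop
    · unfold Q; fun_prop
    · rintro ⟨z, θ⟩ ⟨h1, h2⟩
      exact ne_of_re (Q_pos (hball h1) h2)
  obtain ⟨B, hB⟩ := hK.exists_bound_of_continuousOn hc
  have hI : ∀ z ∈ closedBall χ δ,
      ContinuousOn (fun θ : ℝ => Complex.log (Q z θ)) (Icc (-(π / 2)) (π / 2)) := by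
    intro z hz
    apply ContinuousOn.clog
    · unfold Q; fun_prop
    · intro θ hθ
      exact Or.inl (Q_pos (hball hz) hθ)
  have hI' : ∀ z ∈ closedBall χ δ,
      ContinuousOn (fun θ : ℝ => -Complex.sin (z / 2) / Q z θ) (Icc (-(π / 2)) (π / 2)) := by
    intro z hz
    apply ContinuousOn.div continuousOn_const
    · unfold Q; fun_prop
    · intro θ hθ
      exact ne_of_re (Q_pos (hball hz) hθ)
  have hu : Set.uIoc (-(π / 2)) (π / 2) ⊆ Icc (-(π / 2)) (π / 2) := by
    rw [uIoc_of_le hle]; exact Ioc_subset_Icc_self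
  have hcm : χ ∈ closedBall χ δ := mem_closedBall_self hδ.le
  have key := intervalIntegral.hasDerivAt_integral_of_dominated_loc_of_deriv_le (μ := volume)
    (𝕜 := ℂ) (E := ℂ) (a := -(π / 2)) (b := π / 2) (F := fun z θ => Complex.log (Q z θ))
    (F' := fun z θ => -Complex.sin (z / 2) / Q z θ) (x₀ := χ) (s := ball χ δ)
    (bound := fun _ => B) (ball_mem_nhds χ hδ)
    (by
      filter_upwards [ball_mem_nhds χ hδ] with z hz
      exact ((hI z (ball_subset_closedBall hz)).mono hu).aestronglyMeasurable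
        measurableSet_uIoc)
    (by
      apply ContinuousOn.intervalIntegrable
      rw [uIcc_of_le hle]
      exact hI χ hcm)
    (((hI' χ hcm).mono hu).aestronglyMeasurable measurableSet_uIoc)
    (by
      refine Eventually.of_forall fun t ht z hz => ?_
      exact hB (z, t) ⟨ball_subset_closedBall hz, hu ht⟩)
    intervalIntegrable_const
    (by
      refine Eventually.of_forall fun t ht z hz => ?_
      have h1 := Q_pos (hball (ball_subset_closedBall hz)) (hu ht)
      have h2 : HasDerivAt (fun z : ℂ => Q z t) (-Complex.sin (z / 2)) z := by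
        unfold Q
        have h3 : HasDerivAt (fun z : ℂ => z / 2) (1 / 2) z := (hasDerivAt_id z).div_const 2
        have h4 := ((h3.ccos).const_mul (2 : ℂ)).add_const (2 * Complex.cos (t : ℂ))
        exact h4.congr_deriv (by ring)
      exact h2.clog (Or.inl h1))
  exact key.2.const_mul _

/-- the two cosines -/
lemma re_pm {z : ℂ} (h : |z.re| < π / 2) {θ : ℝ} (hθ : θ ∈ Icc (-(π / 2)) (π / 2)) :
    0 < (Complex.cos (((θ : ℂ) - z) / 2)).re ∧ 0 < (Complex.cos (((θ : ℂ) + z) / 2)).re := by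
  rw [abs_lt] at h
  constructor
  · apply re_cos
    have : (((θ : ℂ) - z) / 2).re = (θ - z.re) / 2 := by simp
    rw [this, abs_lt]
    constructor <;> linarith [h.1, h.2, hθ.1, hθ.2]
  · apply re_cos
    have : (((θ : ℂ) + z) / 2).re = (θ + z.re) / 2 := by simp
    rw [this, abs_lt]
    constructor <;> linarith [h.1, h.2, hθ.1, hθ.2]

lemma anti {z : ℂ} (h : |z.re| < π / 2) {θ : ℝ} (hθ : θ ∈ Icc (-(π / 2)) (π / 2)) :
    HasDerivAt (fun θ : ℝ => Complex.log (Complex.cos (((θ : ℂ) - z) / 2)) -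
      Complex.log (Complex.cos (((θ : ℂ) + z) / 2)))
      (Complex.sin z / (Complex.cos z + Complex.cos θ)) θ := by
  obtain ⟨h1, h2⟩ := re_pm h hθ
  have d1 : HasDerivAt (fun θ : ℝ => Complex.cos (((θ : ℂ) - z) / 2))
      (-Complex.sin (((θ : ℂ) - z) / 2) * (1 / 2)) θ := by
    have h3 : HasDerivAt (fun w : ℂ => (w - z) / 2) (1 / 2) (θ : ℂ) :=
      ((hasDerivAt_id (θ : ℂ)).sub_const z).div_const 2
    exact h3.ccos.comp_ofReal
  have d2 : HasDerivAt (fun θ : ℝ => Complex.cos (((θ : ℂ) + z) / 2))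
      (-Complex.sin (((θ : ℂ) + z) / 2) * (1 / 2)) θ := by
    have h3 : HasDerivAt (fun w : ℂ => (w + z) / 2) (1 / 2) (θ : ℂ) :=
      ((hasDerivAt_id (θ : ℂ)).add_const z).div_const 2
    exact h3.ccos.comp_ofReal
  have d3 := (d1.clog_real (Or.inl h1)).sub (d2.clog_real (Or.inl h2))
  refine d3.congr_deriv ?_
  symm
  set u : ℂ := ((θ : ℂ) - z) / 2 with hu
  set v : ℂ := ((θ : ℂ) + z) / 2 with hv
  have e1 : z = v - u := by rw [hu, hv]; ring
  have e2 : (θ : ℂ) = v + u := by rw [hu, hv]; ring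
  have n1 := ne_of_re h1
  have n2 := ne_of_re h2
  rw [e1, e2, Complex.sin_sub, Complex.cos_sub, Complex.cos_add]
  have e3 : Complex.cos v * Complex.cos u + Complex.sin v * Complex.sin u +
      (Complex.cos v * Complex.cos u - Complex.sin v * Complex.sin u) =
      2 * (Complex.cos v * Complex.cos u) := by ring
  rw [e3]
  field_simp
  ring

lemma log_div {a b : ℂ} (ha : 0 < a.re) (hb : 0 < b.re) :
    Complex.log (a / b) = Complex.log a - Complex.log b := by
  have h1 := Complex.abs_arg_lt_pi_div_two_iff.2 (Or.inl ha)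
  have h2 := Complex.abs_arg_lt_pi_div_two_iff.2 (Or.inl hb)
  rw [abs_lt] at h1 h2
  have h3 : a / b = Complex.exp (Complex.log a - Complex.log b) := by
    rw [Complex.exp_sub, Complex.exp_log (ne_of_re ha), Complex.exp_log (ne_of_re hb)]
  rw [h3, Complex.log_exp]
  · rw [Complex.sub_im, Complex.log_im, Complex.log_im]; linarith [h1.1, h2.2]
  · rw [Complex.sub_im, Complex.log_im, Complex.log_im]; linarith [h1.2, h2.1]

/-- `cos (π / 4 - χ / 4)` -/
noncomputable def ca (χ : ℂ) : ℂ := Complex.cos (((π / 2 : ℝ) - χ / 2) / 2)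

/-- `cos (π / 4 + χ / 4)` -/
noncomputable def cb (χ : ℂ) : ℂ := Complex.cos (((π / 2 : ℝ) + χ / 2) / 2)

lemma half_lt {χ : ℂ} (h : |χ.re| < π) : |(χ / 2).re| < π / 2 := by
  rw [half_re, abs_div, abs_two]; linarith

lemma pi_mem : π / 2 ∈ Icc (-(π / 2)) (π / 2) := by
  constructor <;> linarith [Real.pi_pos]

lemma pi_mem' : -(π / 2) ∈ Icc (-(π / 2)) (π / 2) := by
  constructor <;> linarith [Real.pi_pos]

lemma ca_re {χ : ℂ} (h : |χ.re| < π) : 0 < (ca χ).re := (re_pm (half_lt h) pi_mem).1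
lemma cb_re {χ : ℂ} (h : |χ.re| < π) : 0 < (cb χ).re := (re_pm (half_lt h) pi_mem).2

lemma cab (χ : ℂ) : 2 * cb χ * ca χ = Complex.cos (χ / 2) := by
  have h1 := Complex.cos_add_cos ((π / 2 : ℝ) : ℂ) (χ / 2)
  rw [← Complex.ofReal_cos, Real.cos_pi_div_two, Complex.ofReal_zero, zero_add] at h1
  exact h1.symm

lemma caa (χ : ℂ) : 2 * ca χ ^ 2 = 1 + Complex.sin (χ / 2) := by
  unfold ca
  rw [Complex.cos_sq]
  have : 2 * ((((π / 2 : ℝ) : ℂ) - χ / 2) / 2) = π / 2 - χ / 2 := by push_cast; ring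
  rw [this, Complex.cos_pi_div_two_sub]
  ring

theorem gh_eq {χ : ℂ} (h : |χ.re| < π) : gh χ = Complex.log (ca χ) - Complex.log (cb χ) := by
  rw [← log_div (ca_re h) (cb_re h)]
  unfold gh
  congr 1
  have n1 := ne_of_re (ca_re h)
  have n2 := ne_of_re (cb_re h)
  rw [← caa, ← cab]
  field_simp

theorem gh_der {χ : ℂ} (h : |χ.re| < π) : HasDerivAt gh (1 / (2 * Complex.cos (χ / 2))) χ := by
  have hev : gh =ᶠ[𝓝 χ] fun χ => Complex.log (ca χ) - Complex.log (cb χ) := by
    have h1 : IsOpen {z : ℂ | |z.re| < π} :=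
      isOpen_lt (Complex.continuous_re.abs) continuous_const
    filter_upwards [h1.mem_nhds h] with z hz
    exact gh_eq hz
  have d1 : HasDerivAt ca (-Complex.sin (((π / 2 : ℝ) - χ / 2) / 2) * (-(1 / 2) / 2)) χ := by
    have h3 : HasDerivAt (fun χ : ℂ => (((π / 2 : ℝ) : ℂ) - χ / 2) / 2) (-(1 / 2) / 2) χ :=
      (((hasDerivAt_id χ).div_const 2).const_sub _).div_const 2
    exact h3.ccos
  have d2 : HasDerivAt cb (-Complex.sin (((π / 2 : ℝ) + χ / 2) / 2) * ((1 / 2) / 2)) χ := by
    have h3 : HasDerivAt (fun χ : ℂ => (((π / 2 : ℝ) : ℂ) + χ / 2) / 2) ((1 / 2) / 2) χ :=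
      (((hasDerivAt_id χ).div_const 2).const_add _).div_const 2
    exact h3.ccos
  have d3 := (d1.clog (Or.inl (ca_re h))).sub (d2.clog (Or.inl (cb_re h)))
  refine HasDerivAt.congr_of_eventuallyEq ?_ hev
  refine d3.congr_deriv ?_
  symm
  have n1 := ne_of_re (ca_re h)
  have n2 := ne_of_re (cb_re h)
  have e1 : Complex.sin (((π / 2 : ℝ) - χ / 2) / 2) * cb χ +
      ca χ * Complex.sin (((π / 2 : ℝ) + χ / 2) / 2) = 1 := by
    unfold ca cb
    rw [← Complex.sin_add]
    have : (((π / 2 : ℝ) : ℂ) - χ / 2) / 2 + (((π / 2 : ℝ) : ℂ) + χ / 2) / 2 =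
        ((π / 2 : ℝ) : ℂ) := by ring
    rw [this, ← Complex.ofReal_sin, Real.sin_pi_div_two, Complex.ofReal_one]
  rw [← cab]
  generalize Complex.sin (((π / 2 : ℝ) - χ / 2) / 2) = S1 at e1 ⊢
  generalize Complex.sin (((π / 2 : ℝ) + χ / 2) / 2) = S2 at e1 ⊢
  field_simp
  linear_combination -e1

theorem s0_der' {χ : ℂ} (h : |χ.re| < π) : HasDerivAt s0 (-(1 / π) * gh χ) χ := by
  have h0 := s0_der h
  convert h0 using 1
  have hpi := Real.pi_pos
  have hle : -(π / 2) ≤ π / 2 := by linarith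
  have h1 : ∫ θ in (-(π / 2))..(π / 2), Complex.sin (χ / 2) / (Complex.cos (χ / 2) +
      Complex.cos (θ : ℂ)) = 2 * gh χ := by
    rw [intervalIntegral.integral_eq_sub_of_hasDerivAt (f := fun θ : ℝ =>
      Complex.log (Complex.cos (((θ : ℂ) - χ / 2) / 2)) -
      Complex.log (Complex.cos (((θ : ℂ) + χ / 2) / 2)))]
    · rw [gh_eq h]
      have e1 : Complex.cos ((((-(π / 2) : ℝ) : ℂ) - χ / 2) / 2) = cb χ := by
        unfold cb
        rw [← Complex.cos_neg]
        congr 1
        push_cast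
        ring
      have e2 : Complex.cos ((((-(π / 2) : ℝ) : ℂ) + χ / 2) / 2) = ca χ := by
        unfold ca
        rw [← Complex.cos_neg]
        congr 1
        push_cast
        ring
      have e3 : Complex.cos ((((π / 2 : ℝ) : ℂ) - χ / 2) / 2) = ca χ := rfl
      have e4 : Complex.cos ((((π / 2 : ℝ) : ℂ) + χ / 2) / 2) = cb χ := rfl
      simp only [e1, e2, e3, e4]
      ring
    · intro θ hθ
      rw [uIcc_of_le hle] at hθ
      exact anti (half_lt h) hθ
    · apply ContinuousOn.intervalIntegrable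
      rw [uIcc_of_le hle]
      apply ContinuousOn.div continuousOn_const (by fun_prop)
      intro θ hθ h2
      have h3 := Q_pos h hθ
      have h4 : Q χ θ = 2 * (Complex.cos (χ / 2) + Complex.cos (θ : ℂ)) := by unfold Q; ring
      rw [h4, h2] at h3
      simp at h3
  have h2 : ∫ θ in (-(π / 2))..(π / 2), -Complex.sin (χ / 2) / Q χ θ =
      -(1 / 2) * ∫ θ in (-(π / 2))..(π / 2), Complex.sin (χ / 2) / (Complex.cos (χ / 2) +
      Complex.cos (θ : ℂ)) := by
    rw [← intervalIntegral.integral_const_mul]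
    apply intervalIntegral.integral_congr
    intro θ hθ
    rw [uIcc_of_le hle] at hθ
    have h3 := ne_of_re (Q_pos h hθ)
    have h4 : Q χ θ = 2 * (Complex.cos (χ / 2) + Complex.cos (θ : ℂ)) := by unfold Q; ring
    have h5 : Complex.cos (χ / 2) + Complex.cos (θ : ℂ) ≠ 0 := by
      intro h6; rw [h4, h6] at h3; simp at h3
    simp only
    rw [h4]
    field_simp
  rw [h2, h1]
  ring

theorem s0_even (χ : ℂ) : s0 (-χ) = s0 χ := by
  unfold s0
  rw [neg_div, Complex.cos_neg]

theorem s0_re {χ : ℂ} (h : |χ.re| < π) :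
    (s0 χ).re = 1 / π * ∫ θ in (-(π / 2))..(π / 2), Lm χ θ := by
  have hpi := Real.pi_pos
  have hle : -(π / 2) ≤ π / 2 := by linarith
  have hI : IntervalIntegrable (fun θ : ℝ => Complex.log (2 * Complex.cos (χ / 2) +
      2 * Complex.cos (θ : ℂ))) volume (-(π / 2)) (π / 2) := by
    apply ContinuousOn.intervalIntegrable
    rw [uIcc_of_le hle]
    apply ContinuousOn.clog (by fun_prop)
    intro θ hθ
    exact Or.inl (Q_pos h hθ)
  have h1 := Complex.reCLM.intervalIntegral_comp_comm hI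
  unfold s0
  have h2 : (1 / (π : ℂ)) = ((1 / π : ℝ) : ℂ) := by push_cast; rfl
  rw [h2, Complex.re_ofReal_mul]
  congr 1
  rw [Complex.reCLM_apply] at h1
  rw [← h1]
  apply intervalIntegral.integral_congr
  intro θ hθ
  simp only [Complex.reCLM_apply, Complex.log_re, Lm]

/-! ### The values -/

lemma int_sin (a b : ℝ) : IntervalIntegrable (fun s => Real.log (2 * Real.sin s)) volume a b := by
  have := (analyticOnNhd_const.mul Real.analyticOnNhd_sin : AnalyticOnNhd ℝ
      (fun s => (2 : ℝ) * Real.sin s) univ).meromorphicOn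
  exact MeromorphicOn.intervalIntegrable_log (fun x _ => this x (mem_univ x))

lemma int_half : ∫ t in (0 : ℝ)..(π / 2), Real.log (2 * Real.sin t) = 0 := by
  have hpi := Real.pi_pos
  have h1 : ∫ t in (0 : ℝ)..(π / 2), Real.log (2 * Real.sin t) =
      ∫ t in (0 : ℝ)..(π / 2), (Real.log 2 + Real.log (Real.sin t)) := by
    apply intervalIntegral.integral_congr_ae
    refine Eventually.of_forall fun t ht => ?_
    rw [uIoc_of_le (by positivity)] at ht
    have : 0 < Real.sin t := Real.sin_pos_of_pos_of_lt_pi ht.1 (by linarith [ht.2])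
    rw [Real.log_mul two_ne_zero this.ne']
  have h2 : IntervalIntegrable (fun s => Real.log (Real.sin s)) volume 0 (π / 2) := by
    have := (Real.analyticOnNhd_sin (s := univ)).meromorphicOn
    exact MeromorphicOn.intervalIntegrable_log (fun x _ => this x (mem_univ x))
  rw [h1, intervalIntegral.integral_add intervalIntegrable_const h2, integral_log_sin_zero_pi_div_two,
    intervalIntegral.integral_const]
  simp
  ring

/-- `∫_0^{π/4} log (2 sin t) dt` -/
lemma int_q : ∫ t in (0 : ℝ)..(π / 4), Real.log (2 * Real.sin t) = -(π / 4) * bet := by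
  have hpi := Real.pi_pos
  unfold Pool.Agent.W711.HT.bet
  field_simp

lemma int_q' : ∫ t in (π / 4)..(π / 2), Real.log (2 * Real.sin t) = π / 4 * bet := by
  have h1 := intervalIntegral.integral_add_adjacent_intervals (int_sin 0 (π / 4)) (int_sin (π / 4) (π / 2))
  rw [int_half, int_q] at h1
  linarith

lemma int_cos : ∫ t in (0 : ℝ)..(π / 4), Real.log (2 * Real.cos t) = π / 4 * bet := by
  rw [← int_q']
  have h1 := intervalIntegral.integral_comp_sub_left (fun x => Real.log (2 * Real.sin x)) (a := 0)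
    (b := π / 4) (π / 2)
  simp only [Real.sin_pi_div_two_sub] at h1
  rw [h1]
  congr 1 <;> ring

lemma int_cos' : ∫ t in (-(π / 4))..(π / 4), Real.log (2 * Real.cos t) = π / 2 * bet := by
  have hc : ∀ a b : ℝ, IntervalIntegrable (fun s => Real.log (2 * Real.cos s)) volume a b := by
    intro a b
    have := (analyticOnNhd_const.mul Real.analyticOnNhd_cos : AnalyticOnNhd ℝ
      (fun s => (2 : ℝ) * Real.cos s) univ).meromorphicOn
    exact MeromorphicOn.intervalIntegrable_log (fun x _ => this x (mem_univ x))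
  have h1 := intervalIntegral.integral_add_adjacent_intervals (hc (-(π / 4)) 0) (hc 0 (π / 4))
  have h2 := intervalIntegral.integral_comp_neg (fun x => Real.log (2 * Real.cos x)) (a := 0)
    (b := π / 4)
  simp only [Real.cos_neg, neg_zero] at h2
  rw [← h1, ← h2, int_cos]
  ring

lemma s0_real {x : ℝ} (h : |x| < π) : s0 x =
    ((1 / π * ∫ θ in (-(π / 2))..(π / 2), Real.log (2 * Real.cos (x / 2) + 2 * Real.cos θ) : ℝ) : ℂ) := by
  have hpi := Real.pi_pos
  have hle : -(π / 2) ≤ π / 2 := by linarith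
  unfold s0
  rw [Complex.ofReal_mul, ← intervalIntegral.integral_ofReal]
  push_cast
  congr 1
  apply intervalIntegral.integral_congr
  intro θ hθ
  rw [uIcc_of_le hle] at hθ
  simp only
  have h1 : 0 ≤ Real.cos θ := Real.cos_nonneg_of_mem_Icc hθ
  rw [abs_lt] at h
  have h2 : 0 < Real.cos (x / 2) := Real.cos_pos_of_mem_Ioo ⟨by linarith [h.1], by linarith [h.2]⟩
  rw [Complex.ofReal_log (by linarith)]
  push_cast
  rfl

theorem s0_zero : s0 0 = ((2 * bet : ℝ) : ℂ) := by
  have hpi := Real.pi_pos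
  have hle : -(π / 2) ≤ π / 2 := by linarith
  have h1 := s0_real (x := 0) (by simpa using hpi)
  rw [Complex.ofReal_zero] at h1
  rw [h1]
  congr 1
  have h2 : ∫ θ in (-(π / 2))..(π / 2), Real.log (2 * Real.cos (0 / 2) + 2 * Real.cos θ) =
      ∫ θ in (-(π / 2))..(π / 2), 2 * Real.log (2 * Real.cos (θ / 2)) := by
    apply intervalIntegral.integral_congr
    intro θ hθ
    rw [uIcc_of_le hle] at hθ
    simp only
    have h3 : 2 * Real.cos (0 / 2) + 2 * Real.cos θ = (2 * Real.cos (θ / 2)) ^ 2 := by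
      rw [zero_div, Real.cos_zero, mul_pow, Real.cos_sq]
      have : 2 * (θ / 2) = θ := by ring
      rw [this]
      ring
    rw [h3, Real.log_pow]
    push_cast
    rfl
  rw [h2, intervalIntegral.integral_const_mul,
    intervalIntegral.integral_comp_div (fun u => Real.log (2 * Real.cos u)) two_ne_zero]
  have h4 : -(π / 2) / 2 = -(π / 4) := by ring
  have h5 : π / 2 / 2 = π / 4 := by ring
  rw [h4, h5, int_cos']
  rw [smul_eq_mul]
  field_simp

/-- `∫_0^{π/2} log (1 + 2 cos θ) dθ` -/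
lemma int_third : ∫ θ in (0 : ℝ)..(π / 2), Real.log (1 + 2 * Real.cos θ) = 2 * π / 3 * bet := by
  have hpi := Real.pi_pos
  have h1 : ∫ θ in (0 : ℝ)..(π / 2), Real.log (1 + 2 * Real.cos θ) =
      ∫ θ in (0 : ℝ)..(π / 2), (Real.log (2 * Real.sin (3 / 2 * θ)) -
        Real.log (2 * Real.sin (1 / 2 * θ))) := by
    apply intervalIntegral.integral_congr_ae
    refine Eventually.of_forall fun t ht => ?_
    rw [uIoc_of_le (by positivity)] at ht
    have a1 : 0 < Real.sin (1 / 2 * t) :=
      Real.sin_pos_of_pos_of_lt_pi (by linarith [ht.1]) (by linarith [ht.2])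
    have a2 : 0 < Real.sin (3 / 2 * t) :=
      Real.sin_pos_of_pos_of_lt_pi (by linarith [ht.1]) (by linarith [ht.2])
    rw [← Real.log_div (by positivity) (by positivity)]
    congr 1
    rw [eq_div_iff (by positivity)]
    have e1 : 3 / 2 * t = t + 1 / 2 * t := by ring
    have e2 : Real.cos t = 1 - 2 * Real.sin (1 / 2 * t) ^ 2 := by
      have : t = 2 * (1 / 2 * t) := by ring
      conv_lhs => rw [this]
      rw [Real.cos_two_mul, Real.cos_sq']
      ring
    have e3 : Real.sin t = 2 * Real.sin (1 / 2 * t) * Real.cos (1 / 2 * t) := by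
      have : t = 2 * (1 / 2 * t) := by ring
      conv_lhs => rw [this]
      rw [Real.sin_two_mul]
    rw [e1, Real.sin_add, e3, e2]
    have e4 := Real.sin_sq_add_cos_sq (1 / 2 * t)
    linear_combination (-4 * Real.sin (1 / 2 * t)) * e4
  have i1 : IntervalIntegrable (fun s => Real.log (2 * Real.sin (3 / 2 * s))) volume 0 (π / 2) := by
    have := (int_sin (3 / 2 * 0) (3 / 2 * (π / 2))).comp_mul_left (c := 3 / 2)
    convert this using 1 <;> ring
  have i2 : IntervalIntegrable (fun s => Real.log (2 * Real.sin (1 / 2 * s))) volume 0 (π / 2) := by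
    have := (int_sin (1 / 2 * 0) (1 / 2 * (π / 2))).comp_mul_left (c := 1 / 2)
    convert this using 1 <;> ring
  rw [h1, intervalIntegral.integral_sub i1 i2,
    intervalIntegral.integral_comp_mul_left (fun u => Real.log (2 * Real.sin u)) (by norm_num : (3 / 2 : ℝ) ≠ 0),
    intervalIntegral.integral_comp_mul_left (fun u => Real.log (2 * Real.sin u)) (by norm_num : (1 / 2 : ℝ) ≠ 0)]
  have e1 : 1 / 2 * (π / 2) = π / 4 := by ring
  have e2 : ∫ t in (π / 2)..(3 / 2 * (π / 2)), Real.log (2 * Real.sin t) = π / 4 * bet := by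
    rw [← int_q']
    have h3 := intervalIntegral.integral_comp_sub_left (fun x => Real.log (2 * Real.sin x))
      (a := π / 4) (b := π / 2) π
    simp only [Real.sin_pi_sub] at h3
    rw [h3]
    congr 1 <;> ring
  have e3 := intervalIntegral.integral_add_adjacent_intervals (int_sin 0 (π / 2))
    (int_sin (π / 2) (3 / 2 * (π / 2)))
  rw [int_half, e2] at e3
  rw [e1, mul_zero, mul_zero, int_q, ← e3]
  simp only [smul_eq_mul]
  ring

theorem s0_third : s0 ((2 * π / 3 : ℝ) : ℂ) = ((4 / 3 * bet : ℝ) : ℂ) := by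
  have hpi := Real.pi_pos
  rw [s0_real (by rw [abs_of_pos (by positivity)]; linarith)]
  congr 1
  have h1 : 2 * π / 3 / 2 = π / 3 := by ring
  rw [h1, Real.cos_pi_div_three]
  have h2 : ∀ θ : ℝ, 2 * (1 / 2 : ℝ) + 2 * Real.cos θ = 1 + 2 * Real.cos θ := by intro θ; ring
  simp only [h2]
  have hc : ∀ a b : ℝ, a ∈ Icc (-(π / 2)) (π / 2) → b ∈ Icc (-(π / 2)) (π / 2) →
      IntervalIntegrable (fun s => Real.log (1 + 2 * Real.cos s)) volume a b := by
    intro a b ha hb
    apply ContinuousOn.intervalIntegrable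
    apply ContinuousOn.log (by fun_prop)
    intro s hs
    have h3 : s ∈ Icc (-(π / 2)) (π / 2) := (convex_Icc _ _).ordConnected.uIcc_subset ha hb hs
    have := Real.cos_nonneg_of_mem_Icc h3
    linarith
  have h0 : (0 : ℝ) ∈ Icc (-(π / 2)) (π / 2) := ⟨by linarith, by linarith⟩
  have h4 := intervalIntegral.integral_add_adjacent_intervals (hc _ _ pi_mem' h0) (hc _ _ h0 pi_mem)
  have h5 := intervalIntegral.integral_comp_neg (fun x => Real.log (1 + 2 * Real.cos x)) (a := 0)
    (b := π / 2)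
  simp only [Real.cos_neg, neg_zero] at h5
  rw [← h4, ← h5, int_third]
  field_simp
  ring

/-! ### Numerical bounds -/

lemma tan_ge {u : ℝ} (h0 : 0 ≤ u) (h1 : u < π / 2) : u + u ^ 3 / 3 ≤ Real.tan u := by
  have key : MonotoneOn (fun u => Real.tan u - (u + u ^ 3 / 3)) (Ico 0 (π / 2)) := by
    have hcos : ∀ x ∈ Ico 0 (π / 2), Real.cos x ≠ 0 := fun x hx =>
      (Real.cos_pos_of_mem_Ioo ⟨by linarith [hx.1, Real.pi_pos], hx.2⟩).ne'
    have hd : ∀ x ∈ Ico 0 (π / 2), HasDerivAt (fun u => Real.tan u - (u + u ^ 3 / 3))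
        (1 / Real.cos x ^ 2 - (1 + 3 * x ^ 2 / 3)) x := by
      intro x hx
      have d1 := Real.hasDerivAt_tan (hcos x hx)
      have d2 : HasDerivAt (fun u : ℝ => u + u ^ 3 / 3) (1 + 3 * x ^ 2 / 3) x := by
        have d3 := (hasDerivAt_pow 3 x).div_const 3
        have d4 := (hasDerivAt_id x).add d3
        exact d4.congr_deriv (by norm_num)
      exact d1.sub d2
    apply monotoneOn_of_deriv_nonneg (convex_Ico _ _)
    · intro x hx
      exact (hd x hx).continuousAt.continuousWithinAt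
    · intro x hx
      exact (hd x (interior_subset hx)).differentiableAt.differentiableWithinAt
    · intro x hx
      have hx' := interior_subset hx
      rw [(hd x hx').deriv]
      have t1 : x ≤ Real.tan x := by
        rcases hx'.1.eq_or_lt with h | h
        · rw [← h]; simp
        · exact (Real.lt_tan h hx'.2).le
      have t2 : 1 / Real.cos x ^ 2 = 1 + Real.tan x ^ 2 := by
        have := hcos x hx'
        rw [Real.tan_eq_sin_div_cos]
        field_simp
        linarith [Real.sin_sq_add_cos_sq x]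
      rw [t2]
      have := pow_le_pow_left₀ hx'.1 t1 2
      linarith
  have := key (left_mem_Ico.2 (by positivity)) ⟨h0, h1⟩ h0
  simp at this
  linarith

lemma log_cos_le {u : ℝ} (h0 : 0 ≤ u) (h1 : u < π / 2) :
    Real.log (Real.cos u) ≤ -(u ^ 2 / 2) - u ^ 4 / 12 := by
  have key : AntitoneOn (fun u => Real.log (Real.cos u) + (u ^ 2 / 2 + u ^ 4 / 12)) (Ico 0 (π / 2)) := by
    have hcos : ∀ x ∈ Ico 0 (π / 2), Real.cos x ≠ 0 := fun x hx =>
      (Real.cos_pos_of_mem_Ioo ⟨by linarith [hx.1, Real.pi_pos], hx.2⟩).ne'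
    have hd : ∀ x ∈ Ico 0 (π / 2), HasDerivAt (fun u => Real.log (Real.cos u) + (u ^ 2 / 2 + u ^ 4 / 12))
        (-Real.sin x / Real.cos x + (2 * x / 2 + 4 * x ^ 3 / 12)) x := by
      intro x hx
      have d1 := (Real.hasDerivAt_cos x).log (hcos x hx)
      have d2 : HasDerivAt (fun u : ℝ => u ^ 2 / 2 + u ^ 4 / 12) (2 * x / 2 + 4 * x ^ 3 / 12) x := by
        have d3 := (hasDerivAt_pow 2 x).div_const 2
        have d4 := d3.add ((hasDerivAt_pow 4 x).div_const 12)
        exact d4.congr_deriv (by norm_num)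
      exact d1.add d2
    apply antitoneOn_of_deriv_nonpos (convex_Ico _ _)
    · intro x hx
      exact (hd x hx).continuousAt.continuousWithinAt
    · intro x hx
      exact (hd x (interior_subset hx)).differentiableAt.differentiableWithinAt
    · intro x hx
      have hx' := interior_subset hx
      rw [(hd x hx').deriv]
      have t1 := tan_ge hx'.1 hx'.2
      rw [Real.tan_eq_sin_div_cos] at t1
      rw [neg_div]
      linarith
  have := key (left_mem_Ico.2 (by positivity)) ⟨h0, h1⟩ h0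
  simp at this
  linarith

lemma bet_le : bet ≤ 5842 / 10000 := by
  have hpi := Real.pi_pos
  have h1 : ∫ t in (0 : ℝ)..(π / 4), Real.log (2 * Real.cos t) ≤
      ∫ t in (0 : ℝ)..(π / 4), (Real.log 2 - t ^ 2 / 2 - t ^ 4 / 12) := by
    apply intervalIntegral.integral_mono_on (by positivity)
    · have := (analyticOnNhd_const.mul Real.analyticOnNhd_cos : AnalyticOnNhd ℝ
        (fun s => (2 : ℝ) * Real.cos s) univ).meromorphicOn
      exact MeromorphicOn.intervalIntegrable_log (fun x _ => this x (mem_univ x))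
    · apply Continuous.intervalIntegrable
      fun_prop
    · intro t ht
      have a1 : t < π / 2 := by linarith [ht.2]
      have a2 := log_cos_le ht.1 a1
      have a3 : 0 < Real.cos t := Real.cos_pos_of_mem_Ioo ⟨by linarith [ht.1], a1⟩
      rw [Real.log_mul two_ne_zero a3.ne']
      linarith
  have h2 : ∫ t in (0 : ℝ)..(π / 4), (Real.log 2 - t ^ 2 / 2 - t ^ 4 / 12) =
      Real.log 2 * (π / 4) - (π / 4) ^ 3 / 6 - (π / 4) ^ 5 / 60 := by
    rw [intervalIntegral.integral_sub, intervalIntegral.integral_sub, intervalIntegral.integral_const,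
      intervalIntegral.integral_div, intervalIntegral.integral_div, integral_pow, integral_pow]
    · simp only [smul_eq_mul]
      norm_num
      ring
    all_goals apply Continuous.intervalIntegrable; fun_prop
  rw [int_cos, h2] at h1
  have h3 : bet ≤ Real.log 2 - (π / 4) ^ 2 / 6 - (π / 4) ^ 4 / 60 := by
    have h4 : π / 4 * bet ≤ π / 4 * (Real.log 2 - (π / 4) ^ 2 / 6 - (π / 4) ^ 4 / 60) := by
      calc π / 4 * bet ≤ _ := h1
        _ = _ := by ring
    exact le_of_mul_le_mul_left h4 (by positivity)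
  have h5 := Real.log_two_lt_d9
  have h6 := Real.pi_gt_d6
  have h7 : (0.785397 : ℝ) ≤ π / 4 := by linarith
  have h8 : (0.785397 : ℝ) ^ 2 ≤ (π / 4) ^ 2 := by gcongr
  have h9 : (0.785397 : ℝ) ^ 4 ≤ (π / 4) ^ 4 := by gcongr
  norm_num at h8 h9 ⊢
  linarith

lemma gh_bd {x : ℝ} (h1 : 2 * π / 3 - 1 / 100 ≤ x) (h2 : x ≤ 2 * π / 3) : (gh x).re ≤ 132 / 100 := by
  have hpi := Real.pi_gt_three
  have e1 : gh x = Complex.log (((1 + Real.sin (x / 2)) / Real.cos (x / 2) : ℝ) : ℂ) := by
    unfold gh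
    push_cast
    rfl
  have c1 : 1 / 2 ≤ Real.cos (x / 2) := by
    rw [← Real.cos_pi_div_three]
    apply Real.cos_le_cos_of_nonneg_of_le_pi <;> linarith
  have c2 : Real.sin (x / 2) ≤ √3 / 2 := by
    rw [← Real.sin_pi_div_three]
    apply Real.sin_le_sin_of_le_of_le_pi_div_two <;> linarith
  have c3 : 0 < Real.sin (x / 2) := Real.sin_pos_of_pos_of_lt_pi (by linarith) (by linarith)
  have c4 : √3 ≤ 1.7321 := by
    rw [Real.sqrt_le_left (by norm_num)]
    norm_num
  rw [e1, Complex.log_re, Complex.norm_real, Real.norm_of_nonneg (by positivity)]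
  have c5 : (1 + Real.sin (x / 2)) / Real.cos (x / 2) ≤ 4 * (37321 / 40000) := by
    rw [div_le_iff₀ (by linarith)]
    nlinarith
  calc Real.log ((1 + Real.sin (x / 2)) / Real.cos (x / 2)) ≤ Real.log (4 * (37321 / 40000)) := by
        apply Real.log_le_log (by positivity) c5
    _ = 2 * Real.log 2 + Real.log (37321 / 40000) := by
        rw [Real.log_mul (by norm_num) (by norm_num)]
        have : (4 : ℝ) = 2 ^ 2 := by norm_num
        rw [this, Real.log_pow]
        push_cast
        rfl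
    _ ≤ 132 / 100 := by
        have h3 := Real.log_le_sub_one_of_pos (by norm_num : (0 : ℝ) < 37321 / 40000)
        have h5 := Real.log_two_lt_d9
        norm_num at h3 h5 ⊢
        linarith

lemma s0_bd {x : ℝ} (h1 : 2 * π / 3 - 1 / 100 ≤ x) (h2 : x ≤ 2 * π / 3) : (s0 x).re ≤ 157 / 200 := by
  have hpi := Real.pi_gt_three
  have hb := bet_le
  have e0 : (s0 ((2 * π / 3 : ℝ) : ℂ)).re = 4 / 3 * bet := by rw [s0_third, Complex.ofReal_re]
  rcases h2.eq_or_lt with h | h
  · rw [h, e0]; linarith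
  · have hd : ∀ y ∈ Icc x (2 * π / 3), HasDerivAt (fun y : ℝ => (s0 y).re) (-(1 / π) * gh y : ℂ).re y := by
      intro y hy
      apply HasDerivAt.real_of_complex
      apply s0_der'
      rw [Complex.ofReal_re, abs_lt]
      constructor <;> linarith [hy.1, hy.2]
    obtain ⟨c, hc, hc'⟩ := exists_hasDerivAt_eq_slope (fun y : ℝ => (s0 y).re)
      (fun y : ℝ => (-(1 / π) * gh y : ℂ).re) h
      (fun y hy => (hd y hy).continuousAt.continuousWithinAt)
      (fun y hy => hd y (Ioo_subset_Icc_self hy))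
    have e1 : (-(1 / π) * gh c : ℂ).re = -(1 / π) * (gh c).re := by
      have : (-(1 / π) : ℂ) = ((-(1 / π) : ℝ) : ℂ) := by push_cast; rfl
      rw [this, Complex.re_ofReal_mul]
    rw [e1, e0] at hc'
    have e2 := gh_bd (x := c) (by linarith [hc.1]) hc.2.le
    have e3 : -(44 / 100) ≤ -(1 / π) * (gh c).re := by
      have : 1 / π * (gh c).re ≤ 1 / 3 * (132 / 100) := by
        calc 1 / π * (gh c).re ≤ 1 / π * (132 / 100) := by gcongr
          _ ≤ 1 / 3 * (132 / 100) := by gcongr
      linarith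
    rw [hc', le_div_iff₀ (by linarith)] at e3
    nlinarith

theorem s0p : S_S0P := by
  refine ⟨fun χ h => ⟨s0_der' h, gh_der h⟩, s0_even, s0_zero, fun χ h => s0_re h, ?_⟩
  intro x h1 h2
  rcases abs_cases x with h | h
  · rw [h.1] at h1 h2
    exact s0_bd h1 h2
  · rw [h.1] at h1 h2
    have h3 := s0_bd h1 h2
    rw [Complex.ofReal_neg, s0_even] at h3
    exact h3

end Pool.Agent.Y710.CG
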